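import Pool.Agent.N154.TB.VGeo

/-!
Entire curves in projective varieties with a holomorphic map to an abelian variety whose 2-forms are
positive in the directions of the abelian variety, outside an arbitrary closed subset (for example,
in all surfaces of general type with a map to an abelian variety): every closed subset `V` contains
an entire curve in a fibre or in the exceptional subset, or all the entire curves in `V` come from
finitely many elliptic curves.
-/

set_option autoImplicit false

open FF LinearAlgebra.Projectivization Pool.Agent.W602.GT Pool.Agent.N154.TB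
open Pool.Agent.N154.TT (RiemannForm HolToTorus)
open Pool.Agent.N154.GG (projDist)

/-- Let `X = {F = 0}` be an irreducible projective variety of dimension `w ≥ 2` with generic point
`y`, which may be singular, and let `S = {G = 0}` be any closed subset which contains the points
where `X` is not a manifold of dimension `d`. Let `α : X → A = ℂᵐ / Λ` be a holomorphic map to an
abelian variety (`H` is a Riemann form). Assume that the 2-forms of `X` are positive outside `S` in
the directions of `A` (see `TwoForms`; for example, `X` may be any smooth surface of general type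
and `S` the base locus of the sections of a power of the canonical bundle which vanish on a
hyperplane section). There is no hypothesis on `S` and on the fibres of `α`.

(1) Let `V` be any subset of `X` which is closed in the classical topology. Then there is a
nonconstant holomorphic map `h` from `ℂ` to `V`, with bounded derivative, whose image lies in a
fibre of `α` or in `S`; or there is a finite set `T` of maps from elliptic curves to `V` (`α ∘ g` is
a nonconstant affine map for `g` in `T`) such that every nonconstant holomorphic map `ℂ → V` is the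
composition of a map in `T` with an entire function, and some form which is not zero on `X` vanishes
on the images of all these maps.

For `V = X` this says that `X` is pseudo-Brody hyperbolic, with finitely many elliptic curves as
exceptional set, if the fibres of `α` and `S` are Brody hyperbolic. Let `V` be the closure of the
image of a nonconstant holomorphic map `f : ℂ → X`: if `X` is any smooth surface of general type
whose map to `A` is not constant, then `f` is algebraically degenerate or the closure of its image
contains a rational or an elliptic curve.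

(2) If `f : ℂ → X` is a holomorphic map with bounded derivative then `α ∘ f` is constant, or `f` is
doubly periodic (it comes from an elliptic curve) and its image lies in the zeros of a form which
is not zero on `X`, or the closure of its image contains the image of a nonconstant holomorphic map
`ℂ → S` with bounded derivative. -/
theorem Pool.Agent.Results.MP_2a5ae2_ag.EntireCurvesOverAbelian.result {n d m w : ℕ}
    {ι ι' : Type} (F : ι → MvPolynomial (Fin (n + 1)) ℂ) (hF : ∀ i, IsForm (F i)) {K : Type}
    [Field K] [Algebra ℂ K] (y : Fin (n + 1) → K) (hw : 2 ≤ w) (hy : SubVar F K w y)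
    (hirr : Cone F ⊆ VarPts ℂ y) (G : ι' → MvPolynomial (Fin (n + 1)) ℂ) (hG : ∀ j, IsForm (G j))
    (Λ : Submodule ℤ (Fin m → ℂ)) [DiscreteTopology Λ]
    [IsZLattice ℝ Λ] (H : (Fin m → ℂ) → (Fin m → ℂ) → ℂ) (hH : RiemannForm Λ H)
    (α : (Fin (n + 1) → ℂ) → (Fin m → ℂ) ⧸ Λ) (hα : HolToTorus (Cone F) Λ α) {κ : Type}
    (k : κ → ℕ) (η : κ → (Fin (n + 1) → ℂ) → (Fin (n + 1) → ℂ) → (Fin (n + 1) → ℂ) → ℂ)
    (hη : TwoForms (Cone F) (Zeros G) d α k η) :
    (∀ V : Set (ℙ ℂ (Fin (n + 1) → ℂ)), (∀ p ∈ V, p.rep ∈ Cone F) →
      (∀ p, (∀ ε > 0, ∃ q ∈ V, projDist p q < ε) → p ∈ V) →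
      (∃ h, CurveIn (Cone F) h ∧ ¬ IsConst h ∧ (∀ z, h z ∈ V) ∧
        ((∀ z w, α (h z).rep = α (h w).rep) ∨ ∀ z, (h z).rep ∈ Zeros G) ∧
        ∀ z w, projDist (h z) (h w) ≤ 2 * ‖z - w‖) ∨
      ∃ T : Set (ℂ → ℙ ℂ (Fin (n + 1) → ℂ)), T.Finite ∧
        (∀ g ∈ T, CurveIn (Cone F) g ∧ (∀ z, g z ∈ V) ∧ Elliptic g ∧ OverLine α g) ∧
        (∀ f, CurveIn (Cone F) f → (∀ z, f z ∈ V) → IsConst f ∨ Factors T f) ∧
        ∃ Q : MvPolynomial (Fin (n + 1)) ℂ, IsForm Q ∧ val y Q ≠ 0 ∧
          ∀ g ∈ T, ∀ z, val (g z).rep Q = 0) ∧
    (∀ f, CurveIn (Cone F) f → (∃ B : ℝ, ∀ z w, projDist (f z) (f w) ≤ B * ‖z - w‖) →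
      (∀ z w, α (f z).rep = α (f w).rep) ∨ (Elliptic f ∧ OverLine α f ∧
        ∃ Q : MvPolynomial (Fin (n + 1)) ℂ, IsForm Q ∧ val y Q ≠ 0 ∧
          ∀ z, val (f z).rep Q = 0) ∨
      ∃ h, CurveIn (Cone F) h ∧ ¬ IsConst h ∧ (∀ z, (h z).rep ∈ Zeros G) ∧
        (∀ z w, projDist (h z) (h w) ≤ 2 * ‖z - w‖) ∧
        ∀ z, ∀ ε > 0, ∃ w, projDist (h z) (f w) < ε) := by
  refine ⟨fun V hVX hVc => ?_, fun f hf hB => ?_⟩
  · rcases closed_geo hF hG hη hH hα hVX hVc with h | ⟨T, h1, h2, h3, h4⟩
    · exact Or.inl h
    · exact Or.inr ⟨T, h1, h2, h3, h4 K w y hw hy hirr⟩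
  · rcases brody_geoS hF hG hη hα hf hB with h | ⟨h1, h2, h3⟩ | h
    · exact Or.inl h
    · exact Or.inr (Or.inl ⟨h1, h2, h3 K w y hw hy hirr⟩)
    · exact Or.inr (Or.inr h)
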