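import Pool.Agent.N155.L.SFin

/-!
The Green-Griffiths-Lang conjecture for surfaces with symmetric differentials: entire curves of
bounded derivative in a smooth projective surface all of whose subvarieties are of general type are
tangent to all the regular symmetric differentials.
-/

set_option autoImplicit false

open FF Pool.Agent.W602.GT Pool.Agent.N155 LinearAlgebra.Projectivization

/-- Let `X = {F = 0}` be a smooth projective surface with function field `K`, all of whose
subvarieties, including `X`, are of general type.

(1) Every holomorphic map from the complex plane to `X` of bounded derivative is tangent to every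
regular symmetric differential of positive degree on `X`.

(2) If for every extension `L` of `K` and every derivation `D : K → L` without nonconstant rational
first integrals there is a regular symmetric differential `σ` of positive degree on `X` with
`σ(D) ≠ 0`, then `X` is Brody hyperbolic.

(3) If `X` carries a nonzero regular symmetric differential of the form `h da₁ ⋯ da_d`, `d > 0`, with
rational functions `h` and `a₁`, ..., `a_d`, then `X` is Brody hyperbolic. -/
theorem Pool.Agent.Results.MP_2a5ae2_ag.SymmetricDifferentials.result {n : ℕ} {ι : Type}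
    (F : ι → MvPolynomial (Fin (n + 1)) ℂ) {K : Type} [Field K] [Algebra ℂ K]
    (y : Fin (n + 1) → K) (hX : SmoothSurface F y) (hgen : AllSubGeneral F) :
    (∀ f : ℂ → ℙ ℂ (Fin (n + 1) → ℂ), HolMap f → (∀ z, (f z).rep ∈ Cone F) → BoundedDer f →
      ∀ σ : SymD K, 0 < σ.d → σ.Regular 2 → σ.Tangent y f) ∧
    ((∀ (L : Type) [Field L] [Algebra ℂ L] [Algebra K L] [IsScalarTower ℂ K L]
      (D : Derivation ℂ K L), (∀ k, D k = 0 → ∃ c : ℂ, k = algebraMap ℂ K c) →
      ∃ σ : SymD K, 0 < σ.d ∧ σ.Regular 2 ∧ σ.app D ≠ 0) → BrodyHyperbolic F) ∧
    (∀ (d : ℕ) (h : K) (a : Fin d → K), 0 < d → h ≠ 0 → (∀ l, Transcendental ℂ (a l)) →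
      (⟨d, 1, fun _ => h, fun _ => a⟩ : SymD K).Regular 2 → BrodyHyperbolic F) :=
  ⟨fun _ hf hfX hb _ hd hreg => tangent_of_bounded hX hgen hf hfX hb hd hreg,
    fun h => hyp_of_sym hX hgen h,
    fun _ _ _ hd hh ha hreg => hyp_of_prod hX hgen hd hh ha hreg⟩
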