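import Mathlib
import Pool.Agent.N131.SU.Fin

/-!
# A uniform inequality for entire curves in varieties which are not uniruled

Let `X` be a complex projective variety which is not uniruled, or which has a nonzero pluricanonical
form; for instance a variety of general type. There are a form `A` which does not vanish on `X` and a
number `C` such that all entire curves `f` in `X` which are not contained in `A = 0` satisfy

`T(r) ≤ C (N₁(W, r) + log r)`

for all `r ≥ 1` outside a set of finite measure. Here `W` is the Wronskian determinant of a basis of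
the linear span of the entire functions `f_j`, `T` is the characteristic function of `f`, and
`N₁(W, r)` is the counting function of the zeros of `W` in which every zero is counted once.

The same holds for the rational functions on every rational image `Y` of an arbitrary projective
variety `X` if `Y` is not uniruled or has a nonzero pluricanonical form; and for the curves `f = P(G)`
where `G` is an entire curve in a projective space of dimension `M` and `P` is given by forms of
degree `e`, with the Wronskian of `G`, an additional term `log⁺ T_G(r)`, and with `A` and `C` which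
depend only on `X`, `M` and `e` (and on the rational function).
-/

set_option autoImplicit false

namespace Pool.Agent.Results.MP_2a5ae2_ag.UniformNonuniruled

open MeasureTheory MvPolynomial ValueDistribution
open Pool.Agent.TH143.GT (FunField Covered Pluricanonical)
open Pool.Agent.W602.GT (IsForm)

/-- The characteristic function of the curve with the homogeneous coordinates `f`: the mean of the
logarithm of the maximum norm over the circle of the radius `r`. -/
noncomputable def T {N : ℕ} (f : Fin (N + 1) → ℂ → ℂ) (r : ℝ) : ℝ :=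
  Real.circleAverage (fun z => Real.log ‖fun j => f j z‖) 0 r

/-- The counting function of the zeros of `h`; every zero is counted once. -/
noncomputable def N₁ (h : ℂ → ℂ) (r : ℝ) : ℝ :=
  ∑ᶠ z ∈ {z : ℂ | h z = 0 ∧ ‖z‖ ≤ r}, if z = 0 then Real.log r else Real.log (r / ‖z‖)

/-- The Wronskian determinant. -/
noncomputable def W {n : ℕ} (g : Fin n → ℂ → ℂ) (z : ℂ) : ℂ :=
  Matrix.det (Matrix.of fun i j : Fin n => iteratedDeriv i (g j) z)

/-- An entire curve in the projective space of dimension `N`, given as the image of entire functions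
`G_0, …, G_M` under forms `P` of the same degree `e > 0` which have no common zeros along `G`, with
a basis `g` of the linear span of the functions `G`. -/
structure Curve (N M e : ℕ) where
  G : Fin (M + 1) → ℂ → ℂ
  hol : ∀ k, Differentiable ℂ (G k)
  pos : 0 < e
  P : Fin (N + 1) → MvPolynomial (Fin (M + 1)) ℂ
  hom : ∀ j, (P j).IsHomogeneous e
  ne : ∀ z, ∃ j, eval (fun k => G k z) (P j) ≠ 0
  n : ℕ
  g : Fin n → ℂ → ℂ
  ind : LinearIndependent ℂ g
  span : Submodule.span ℂ (Set.range g) = Submodule.span ℂ (Set.range G)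

variable {N M e : ℕ}

/-- The homogeneous coordinates of the curve. -/
noncomputable def Curve.f (c : Curve N M e) (z : ℂ) (j : Fin (N + 1)) : ℂ :=
  eval (fun k => c.G k z) (c.P j)

/-- A form vanishes along the curve. -/
def Curve.On (c : Curve N M e) (F : MvPolynomial (Fin (N + 1)) ℂ) : Prop :=
  ∀ z, eval (c.f z) F = 0

/-- The inequality with the constant `C`: there is a set `E` of finite measure with
`S(r) ≤ C (N₁(W, r) + log r + log⁺ T_G(r))` for all `r ≥ 1` outside `E`. -/
def Curve.Bound (c : Curve N M e) (S : ℝ → ℝ) (C : ℝ) : Prop :=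
  ∃ E : Set ℝ, volume E < ⊤ ∧ ∀ r, 1 ≤ r → r ∉ E → S r ≤
    C * (N₁ (W c.g) r + Real.log r + Real.posLog (T c.G r))

/-- The entire functions `f` without common zeros as a curve: `G = f`. -/
noncomputable def Curve.self (f : Fin (N + 1) → ℂ → ℂ) (hf : ∀ j, Differentiable ℂ (f j))
    (h0 : ∀ z, ∃ j, f j z ≠ 0) {n : ℕ} (g : Fin n → ℂ → ℂ) (hg : LinearIndependent ℂ g)
    (hs : Submodule.span ℂ (Set.range g) = Submodule.span ℂ (Set.range f)) : Curve N N 1 where
  G := f
  hol := hf
  pos := one_pos
  P := fun j => X j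
  hom := fun j => isHomogeneous_X _ j
  ne := fun z => by
    obtain ⟨j, hj⟩ := h0 z
    exact ⟨j, by rwa [eval_X]⟩
  n := n
  g := g
  ind := hg
  span := hs

/-- The field `E` is the function field of varieties which are not uniruled, or which have a nonzero
pluricanonical form. -/
def NonUniruled (E : Type) [Field E] [Algebra ℂ E] : Prop :=
  ¬ Covered E ∨ ∃ v : ℕ, 0 < v ∧ Algebra.trdeg ℂ E = v ∧ ∃ n : ℕ, 0 < n ∧
    ∃ ω : (Fin v → Derivation ℂ E E) → E, Pluricanonical v n ω ∧ ω ≠ 0

theorem N₁_eq {h : ℂ → ℂ} {r : ℝ} (hr : 1 ≤ r) (hfin : {z : ℂ | h z = 0 ∧ ‖z‖ ≤ r}.Finite) :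
    N₁ h r = N131.SR.Nb h r := by
  classical
  have hF : ∀ z, z ∈ hfin.toFinset ↔ h z = 0 ∧ ‖z‖ ≤ r := fun z => by
    rw [Set.Finite.mem_toFinset]
    rfl
  rw [N131.SR.Nb_eq r hfin.toFinset hF]
  unfold N₁
  rw [finsum_mem_eq_finite_toFinset_sum _ hfin]
  have h1 : ∀ z ∈ hfin.toFinset, (if z = 0 then Real.log r else Real.log (r / ‖z‖)) =
      Real.log (r * ‖z‖⁻¹) + if z = 0 then Real.log r else 0 := by
    intro z _
    by_cases h : z = 0
    · simp [h]
    · simp [h, div_eq_mul_inv]
  rw [Finset.sum_congr rfl h1, Finset.sum_add_distrib, Finset.sum_ite_eq']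
  congr 1
  by_cases h0 : h 0 = 0
  · rw [if_pos ((hF 0).2 ⟨h0, by rw [norm_zero]; linarith⟩),
      Set.indicator_of_mem (show (0 : ℂ) ∈ {z : ℂ | h z = 0} from h0)]
    simp
  · rw [if_neg fun h2 => h0 ((hF 0).1 h2).1,
      Set.indicator_of_notMem (show (0 : ℂ) ∉ {z : ℂ | h z = 0} from h0)]
    simp

/-- the curve in the notation of the proof -/
noncomputable def Curve.crv (c : Curve N M e) : N131.SU.Crv M N c.n e :=
  ⟨c.G, c.P, c.g, ⟨c.hol, c.pos, c.hom, c.ne, c.ind, c.span⟩⟩

theorem Curve.wr (c : Curve N M e) {r : ℝ} (hr : 1 ≤ r) :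
    N₁ (W c.g) r = N131.SR.Nb (N131.SR.Wr c.g) r := by
  obtain ⟨a, b, ha, hb, hgd, hW⟩ := c.crv.D.data
  exact N₁_eq hr (N131.SR.zeros_finite (N131.SR.Wr_diff hgd) hW r)

theorem Curve.not_on {c : Curve N M e} {F : MvPolynomial (Fin (N + 1)) ℂ} (h : ¬ c.On F) :
    ∃ z, eval (fun j => c.crv.f j z) F ≠ 0 := by
  unfold Curve.On at h
  push Not at h
  exact h

theorem Curve.bound_of (c : Curve N M e) {S : ℝ → ℝ} {C : ℝ} (h : c.crv.Bd S (fun _ => 1) C) :
    c.Bound S C := by
  obtain ⟨E, hE, hb⟩ := h
  refine ⟨E, hE, fun r hr hrE => ?_⟩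
  have h2 := hb r hr hrE
  rw [c.wr hr]
  have h3 : N131.SR.Nb (fun _ : ℂ => (1 : ℂ)) r = 0 := by
    rw [N131.SR.Nb_eq r ∅ (fun z => by simp)]
    have h1 : (0 : ℂ) ∉ {z : ℂ | (1 : ℂ) = 0} := one_ne_zero
    rw [Set.indicator_of_notMem h1]
    simp
  unfold N131.SU.Crv.Y at h2
  rw [h3, add_zero] at h2
  exact h2

theorem N₁_nonneg {h : ℂ → ℂ} {r : ℝ} (hr : 1 ≤ r) : 0 ≤ N₁ h r := by
  apply finsum_nonneg
  intro z
  apply finsum_nonneg
  intro hz
  split_ifs with h0
  · exact Real.log_nonneg hr
  · apply Real.log_nonneg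
    rw [le_div_iff₀ (norm_pos_iff.2 h0), one_mul]
    exact hz.2

/-- Let `X` be the projective variety with the ideal `p`, the function field `K`, the generic point
`y` and the dimension `w`.

(1) Let `E` be a field between the field of the complex numbers and `K`, which is the function field
of varieties that are not uniruled or have a nonzero pluricanonical form, and let `F / F'` be a
rational function in `E`. For all `M` and `e` there are a form `A` which does not belong to `p` and a
number `C` such that `T(F(f) / F'(f), r) ≤ C (N₁(W, r) + log r + log⁺ T_G(r))`, for all `r ≥ 1`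
outside a set of finite measure, for all entire curves `f = P(G)`, with `G_0, …, G_M` and `P` of
degree `e`, in `X` which are not contained in `A = 0`.

(2) If `X` is not uniruled or has a nonzero pluricanonical form, then the same holds for the
characteristic of `f`.

(3) For every `C` there is `C'` such that for all curves with `G = f` the inequality for the
characteristic of `f` with the constant `C` implies `T_f(r) ≤ C' (N₁(W, r) + log r)` for all `r ≥ 1`
outside a set of finite measure. -/
theorem result {p : Ideal (MvPolynomial (Fin (N + 1)) ℂ)} {K : Type} [Field K] [Algebra ℂ K]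
    {w : ℕ} {y : Fin (N + 1) → K} (hy : FunField p 1 K w y) :
    (∀ E : IntermediateField ℂ K, NonUniruled E →
      ∀ (m : ℕ) (F F' : MvPolynomial (Fin (N + 1)) ℂ), F.IsHomogeneous m → F'.IsHomogeneous m →
        W602.GT.val y F' ≠ 0 → W602.GT.val y F / W602.GT.val y F' ∈ E →
          ∀ M e : ℕ, ∃ A : MvPolynomial (Fin (N + 1)) ℂ, IsForm A ∧ A ∉ p ∧ ∃ C : ℝ,
            ∀ c : Curve N M e, (∀ F ∈ p, IsForm F → c.On F) → ¬ c.On A →
              c.Bound (characteristic (fun z => eval (c.f z) F / eval (c.f z) F') ⊤) C) ∧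
    (NonUniruled K → ∀ M e : ℕ, ∃ A : MvPolynomial (Fin (N + 1)) ℂ, IsForm A ∧ A ∉ p ∧ ∃ C : ℝ,
      ∀ c : Curve N M e, (∀ F ∈ p, IsForm F → c.On F) → ¬ c.On A →
        c.Bound (T fun j z => c.f z j) C) ∧
    ∀ C : ℝ, ∃ C' : ℝ, ∀ (f : Fin (N + 1) → ℂ → ℂ) (hf : ∀ j, Differentiable ℂ (f j))
      (h0 : ∀ z, ∃ j, f j z ≠ 0) (n : ℕ) (g : Fin n → ℂ → ℂ) (hg : LinearIndependent ℂ g)
      (hs : Submodule.span ℂ (Set.range g) = Submodule.span ℂ (Set.range f)),
      (Curve.self f hf h0 g hg hs).Bound (T f) C → ∃ E : Set ℝ, volume E < ⊤ ∧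
        ∀ r, 1 ≤ r → r ∉ E → T f r ≤ C' * (N₁ (W g) r + Real.log r) := by
  refine ⟨?_, ?_, ?_⟩
  · intro E hE m F F' hF hF' hn hmem M e
    obtain ⟨A, hA, hAp, C, hC⟩ := N131.SU.cov_fin hy E (by
      rintro ⟨h1, h2⟩
      rcases hE with h | ⟨v, hv, hv2, n, hn, ω, hω, hω0⟩
      · exact h h1
      · exact hω0 (h2 v hv hv2 n hn ω hω)) hF hF' hn hmem M e
    exact ⟨A, hA, hAp, C, fun c hI hcA => c.bound_of (hC c.n c.crv hI (Curve.not_on hcA))⟩
  · intro hK M e
    obtain ⟨A, hA, hAp, C, hC⟩ := N131.SU.kod_fin hy (by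
      rintro ⟨h1, h2⟩
      rcases hK with h | ⟨v, hv, hv2, n, hn, ω, hω, hω0⟩
      · exact h h1
      · have h3 : v = w := by
          have := hy.sub.dim
          rw [hv2] at this
          exact_mod_cast this
        subst h3
        exact hω0 (h2 n hn ω hω)) M e
    exact ⟨A, hA, hAp, C, fun c hI hcA => c.bound_of (hC c.n c.crv hI (Curve.not_on hcA))⟩
  · intro C
    obtain ⟨C', hC'0, hC'⟩ := N131.SU.absorb C
    refine ⟨C', fun f hf h0 n g hg hs hB => ?_⟩
    obtain ⟨E, hE, hb⟩ := hB
    refine ⟨E ∪ Set.Icc 1 2, N131.SU.fin_union hE 2, fun r hr hrE => ?_⟩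
    have h2 := hb r hr fun h => hrE (Or.inl h)
    have h3 : 2 ≤ r := by
      by_contra hcon
      push Not at hcon
      exact hrE (Or.inr ⟨hr, hcon.le⟩)
    exact hC' _ _ r (N₁_nonneg hr) h3 h2

end Pool.Agent.Results.MP_2a5ae2_ag.UniformNonuniruled
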